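import Mathlib
import Pool.Agent.H9.TransDefs
import Pool.Agent.H9.Trans2

set_option autoImplicit false

namespace Pool.Agent.Results.MP_ea5a80_co.Counter
open Pool.Agent.H9.TransDefs Pool.Agent.H9.Trans

def chi {N : ℕ} (c : Finset (Fin N) → Fin 2) (a b d e : Fin N) : Bool := decide (c {a, b, d, e} = 1)

theorem chi_eq {N : ℕ} {c : Finset (Fin N) → Fin 2} {S T : Finset (Fin N)}
    (h : decide (c S = 1) = decide (c T = 1)) : c S = c T := by
  generalize c S = s at h
  generalize c T = t at h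
  revert s t
  decide

theorem f0 : Finset.univ.filter (fun i : Fin (3 + 4 - 1) => 0 ≤ i.val ∧ i.val < 0 + 4) =
    ({0, 1, 2, 3} : Finset (Fin 6)) := by decide
theorem f1 : Finset.univ.filter (fun i : Fin (3 + 4 - 1) => 1 ≤ i.val ∧ i.val < 1 + 4) =
    ({1, 2, 3, 4} : Finset (Fin 6)) := by decide
theorem f2 : Finset.univ.filter (fun i : Fin (3 + 4 - 1) => 2 ≤ i.val ∧ i.val < 2 + 4) =
    ({2, 3, 4, 5} : Finset (Fin 6)) := by decide
theorem g0 : Finset.univ.filter (fun i : Fin (4 + 1) => i.val < 4) =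
    ({0, 1, 2, 3} : Finset (Fin 5)) := by decide
theorem g1 : Finset.univ.filter (fun i : Fin (4 + 1) => 1 ≤ i.val) =
    ({1, 2, 3, 4} : Finset (Fin 5)) := by decide

theorem nop {N : ℕ} {c : Finset (Fin N) → Fin 2} (h : ¬ HasPath 4 3 c) : NoP (chi c) := by
  rintro col x y z h4 h5 ⟨w, h3, a3, v, h2, a2, u, h1, a1, -⟩
  apply h
  refine ⟨![u, v, w, x, y, z], ?_, c {u, v, w, x}, fun j hj => ?_⟩
  · refine Fin.strictMono_iff_lt_succ.2 fun i => ?_
    fin_cases i <;> simpa
  · have b2 : c {v, w, x, y} = c {u, v, w, x} := chi_eq (a2.trans a1.symm)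
    have b3 : c {w, x, y, z} = c {u, v, w, x} := chi_eq (a3.trans a1.symm)
    interval_cases j
    · rw [f0]; simp
    · rw [f1]; simpa using b2
    · rw [f2]; simpa using b3

theorem card4 {N : ℕ} {a b d e : Fin N} (h1 : a < b) (h2 : b < d) (h3 : d < e) :
    ({a, b, d, e} : Finset (Fin N)).card = 4 := by
  rw [Finset.card_insert_of_notMem, Finset.card_insert_of_notMem, Finset.card_pair h3.ne]
  · simp; omega
  · simp; omega

theorem tr {N : ℕ} {c : Finset (Fin N) → Fin 2} (h : IsTransitive 4 c) : Tr (chi c) := by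
  intro a b d e f h1 h2 h3 h4 h5
  have h6 := chi_eq h5
  have := h ![a, b, d, e, f] (by
    refine Fin.strictMono_iff_lt_succ.2 fun i => ?_
    fin_cases i <;> simpa) (c {a, b, d, e}) (by rw [g0]; simp) (by rw [g1]; simpa using h6.symm)
  have m : ∀ i : Fin 5, ![a, b, d, e, f] i ∈ Finset.univ.image ![a, b, d, e, f] :=
    fun i => Finset.mem_image_of_mem _ (Finset.mem_univ i)
  have ma : a ∈ _ := m 0
  have mb : b ∈ _ := m 1
  have md : d ∈ _ := m 2
  have me : e ∈ _ := m 3
  have mf : f ∈ _ := m 4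
  unfold chi
  refine ⟨?_, ?_, ?_⟩
  · rw [this _ (by simp only [Finset.insert_subset_iff, Finset.singleton_subset_iff]; tauto)
      (card4 (h1.trans h2) h3 h4)]
  · rw [this _ (by simp only [Finset.insert_subset_iff, Finset.singleton_subset_iff]; tauto)
      (card4 h1 (h2.trans h3) h4)]
  · rw [this _ (by simp only [Finset.insert_subset_iff, Finset.singleton_subset_iff]; tauto)
      (card4 h1 h2 (h3.trans h4))]

theorem good (N : ℕ) (hN : N ≤ 66) : ∃ c : Finset (Fin N) → Fin 2, ¬ HasPath 4 3 c := by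
  obtain ⟨χ, hχ⟩ := good66
  let c : Finset (Fin N) → Fin 2 := fun S => if h : S.card = 4 then
    (if χ (S.orderEmbOfFin h 0) (S.orderEmbOfFin h 1) (S.orderEmbOfFin h 2) (S.orderEmbOfFin h 3)
      then 1 else 0) else 0
  have hc : ∀ a b d e : Fin N, a < b → b < d → d < e →
      c {a, b, d, e} = if χ a b d e then 1 else 0 := by
    intro a b d e h1 h2 h3
    have k := card4 h1 h2 h3
    have : ![a, b, d, e] = Finset.orderEmbOfFin {a, b, d, e} k := by
      refine Finset.orderEmbOfFin_unique k (fun i => ?_) ?_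
      · fin_cases i <;> simp
      · refine Fin.strictMono_iff_lt_succ.2 fun i => ?_
        fin_cases i <;> simpa
    simp only [c, dif_pos k, ← this]
    rfl
  refine ⟨c, ?_⟩
  rintro ⟨x, hx, col, h⟩
  have h0 := h 0 (by norm_num)
  have h1 := h 1 (by norm_num)
  have h2 := h 2 (by norm_num)
  rw [f0] at h0
  rw [f1] at h1
  rw [f2] at h2
  simp only [Finset.image_insert, Finset.image_singleton] at h0 h1 h2
  have l1 : x (0 : Fin 6) < x (1 : Fin 6) := hx (by decide)
  have l2 : x (1 : Fin 6) < x (2 : Fin 6) := hx (by decide)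
  have l3 : x (2 : Fin 6) < x (3 : Fin 6) := hx (by decide)
  have l4 : x (3 : Fin 6) < x (4 : Fin 6) := hx (by decide)
  have l5 : x (4 : Fin 6) < x (5 : Fin 6) := hx (by decide)
  rw [hc _ _ _ _ l1 l2 l3] at h0
  rw [hc _ _ _ _ l2 l3 l4] at h1
  rw [hc _ _ _ _ l3 l4 l5] at h2
  have inj : ∀ s t : Bool, (if s then (1 : Fin 2) else 0) = (if t then 1 else 0) → s = t := by
    decide
  exact hχ _ _ _ _ _ _ l1 l2 l3 l4 l5 (lt_of_lt_of_le (x (5 : Fin 6)).2 hN)
    (inj _ _ (h0.trans h1.symm)) (inj _ _ (h1.trans h2.symm))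

theorem result :
    (∀ c : Finset (Fin 66) → Fin 2, IsTransitive 4 c → HasPath 4 3 c) ∧
    Nall 4 2 3 = 67 ∧ Ntr 4 2 3 ≤ 66 ∧ Ntr 4 2 3 < Nall 4 2 3 := by
  have a : ∀ c : Finset (Fin 66) → Fin 2, IsTransitive 4 c → HasPath 4 3 c := by
    intro c hc
    by_contra h
    exact no66 _ (tr hc) (nop h)
  have b : 67 ∈ {N | ∀ c : Finset (Fin N) → Fin 2, HasPath 4 3 c} := by
    intro c
    by_contra h
    exact no67 _ (nop h)
  have d : Nall 4 2 3 = 67 := by
    refine le_antisymm (Nat.sInf_le b) ?_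
    by_contra h
    obtain ⟨c, hc⟩ := good (Nall 4 2 3) (by omega)
    exact hc (Nat.sInf_mem ⟨67, b⟩ c)
  have e : Ntr 4 2 3 ≤ 66 := Nat.sInf_le a
  exact ⟨a, d, e, by omega⟩

end Pool.Agent.Results.MP_ea5a80_co.Counter
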